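import Pool.Agent.U670.ZM.Defs
import Pool.Agent.U670.ZS.Core

set_option autoImplicit false
set_option linter.unusedSectionVars false

open scoped Matrix ENNReal Pointwise

namespace Pool.Agent.U670.ZM

open Pool.Agent.H919R4.ZS (FinRes RedC toRed)
open Pool.Agent.TH98.ZT (URep bd Tempered)
open Pool.Agent.U670.ZS

noncomputable section

variable {G : Type} [Group G] {a b c : ℕ}

variable {C : Subgroup G} {V : Type} [NormedAddCommGroup V] [InnerProductSpace ℂ V] {π : URep C V}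

lemma bd_zero' (D : Matrix (Fin a) (Fin b) (MonoidAlgebra ℤ G)) :
    bd D (0 : Fin a → G → V) = 0 := Pool.Agent.TH98.ZT.bd_zero D

lemma isFin_add {A : Finset (Cos C)} {u v : Fin a → G → V} (hu : IsFin π A u) (hv : IsFin π A v) :
    IsFin π A (u + v) := by
  refine ⟨fun j c x => ?_, fun j x hx => ?_⟩
  · change u j (c * x) + v j (c * x) = π.hom c (u j x + v j x)
    rw [map_add, hu.1, hv.1]
    rfl
  · by_cases h1 : u j x = 0
    · refine hv.2 j x ?_
      intro h2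
      apply hx
      change u j x + v j x = 0
      rw [h1, h2, add_zero]
    · exact hu.2 j x h1

/-- the Laplacian -/
def lapl (E1 : Matrix (Fin a) (Fin b) (MonoidAlgebra ℤ G))
    (E2 : Matrix (Fin a) (Fin c) (MonoidAlgebra ℤ G)) (v : Fin a → G → V) : Fin a → G → V :=
  bd (adjM E1) (bd E1 v) + bd (adjM E2) (bd E2 v)

/-- the step of the iteration -/
def stp (E1 : Matrix (Fin a) (Fin b) (MonoidAlgebra ℤ G))
    (E2 : Matrix (Fin a) (Fin c) (MonoidAlgebra ℤ G)) (κ : ℝ) (v : Fin a → G → V) :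
    Fin a → G → V := v - fun j x => ((κ : ℝ) : ℂ) • lapl E1 E2 v j x

open Classical in
lemma isFin_lapl {A : Finset (Cos C)} {v : Fin a → G → V} (hv : IsFin π A v)
    (E1 : Matrix (Fin a) (Fin b) (MonoidAlgebra ℤ G))
    (E2 : Matrix (Fin a) (Fin c) (MonoidAlgebra ℤ G)) {S : Finset G} (hS1 : SS E1 ⊆ S)
    (hS2 : SS E2 ⊆ S) : IsFin π (Finset.image₂ mulR A S) (lapl E1 E2 v) :=
  isFin_add (isFin_lap hv E1 hS1) (isFin_lap hv E2 hS2)

open Classical in
lemma isFin_stp {A : Finset (Cos C)} {v : Fin a → G → V} (hv : IsFin π A v)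
    (E1 : Matrix (Fin a) (Fin b) (MonoidAlgebra ℤ G))
    (E2 : Matrix (Fin a) (Fin c) (MonoidAlgebra ℤ G)) (κ : ℝ) {S : Finset G} (hS1 : SS E1 ⊆ S)
    (hS2 : SS E2 ⊆ S) : IsFin π (A ∪ Finset.image₂ mulR A S) (stp E1 E2 κ v) :=
  (hv.mono Finset.subset_union_left).sub
    (((isFin_lapl hv E1 E2 hS1 hS2).mono Finset.subset_union_right).smul κ)

lemma IsLf.add {u v : Fin a → G → V} (hu : IsLf π u) (hv : IsLf π v) : IsLf π (u + v) := by
  intro j c x
  change u j (c * x) + v j (c * x) = π.hom c (u j x + v j x)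
  rw [map_add, hu, hv]
  rfl

lemma isLf_stp {v : Fin a → G → V} (hv : IsLf π v)
    (E1 : Matrix (Fin a) (Fin b) (MonoidAlgebra ℤ G))
    (E2 : Matrix (Fin a) (Fin c) (MonoidAlgebra ℤ G)) (κ : ℝ) : IsLf π (stp E1 E2 κ v) := by
  have h : IsLf π (lapl E1 E2 v) := IsLf.add ((hv.bd E1).bd _) ((hv.bd E2).bd _)
  intro j c x
  change v j (c * x) - ((κ : ℝ) : ℂ) • lapl E1 E2 v j (c * x) =
    π.hom c (v j x - ((κ : ℝ) : ℂ) • lapl E1 E2 v j x)
  rw [map_sub, map_smul, hv, h]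
  rfl

lemma ipr_add {A : Finset (Cos C)} {f u v : Fin a → G → V} (hu : IsFin π A u)
    (hv : IsFin π A v) : ipr C f (u + v) = ipr C f u + ipr C f v := by
  rw [(isFin_add hu hv).ipr_eq, hu.ipr_eq, hv.ipr_eq]
  simp only [pair, Pi.add_apply, inner_add_right, Finset.sum_add_distrib]

lemma mass_add_le (u w : Fin a → G → V) (A : Finset (Cos C)) :
    mass (u + w) A ≤ 2 * (mass u A + mass w A) := by
  rw [mass, mass, mass, ← Finset.sum_add_distrib, Finset.mul_sum]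
  refine Finset.sum_le_sum fun j _ => ?_
  rw [← Finset.sum_add_distrib, Finset.mul_sum]
  refine Finset.sum_le_sum fun q _ => ?_
  have h1 : ‖(u + w) j (rep q)‖ ≤ ‖u j (rep q)‖ + ‖w j (rep q)‖ := norm_add_le _ _
  have h2 : ‖(u + w) j (rep q)‖ ^ 2 ≤ (‖u j (rep q)‖ + ‖w j (rep q)‖) ^ 2 :=
    pow_le_pow_left₀ (norm_nonneg _) h1 2
  nlinarith [sq_nonneg (‖u j (rep q)‖ - ‖w j (rep q)‖)]

/-- the norm of the step -/
lemma N2_stp {A : Finset (Cos C)} {v : Fin a → G → V} (hv : IsFin π A v)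
    (E1 : Matrix (Fin a) (Fin b) (MonoidAlgebra ℤ G))
    (E2 : Matrix (Fin a) (Fin c) (MonoidAlgebra ℤ G)) (κ : ℝ) :
    N2 C (stp E1 E2 κ v) ≤ N2 C v - 2 * κ * (N2 C (bd E1 v) + N2 C (bd E2 v)) +
      κ ^ 2 * (2 * (N2 C (bd (adjM E1) (bd E1 v)) + N2 C (bd (adjM E2) (bd E2 v)))) := by
  classical
  set S : Finset G := SS E1 ∪ SS E2 with hS
  have hS1 : SS E1 ⊆ S := Finset.subset_union_left
  have hS2 : SS E2 ⊆ S := Finset.subset_union_right
  have h1 := (isFin_lap hv E1 hS1).mono (Finset.subset_union_right (s₁ := A))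
  have h2 := (isFin_lap hv E2 hS2).mono (Finset.subset_union_right (s₁ := A))
  have h3 := hv.mono (Finset.subset_union_left (s₂ := Finset.image₂ mulR A S))
  have h4 := isFin_stp hv E1 E2 κ hS1 hS2
  have h7 := hv.bd (D := E1) (S := SD E1) subset_rfl
  have h8 := hv.bd (D := E2) (S := SD E2) subset_rfl
  have h5 : pair v (bd (adjM E1) (bd E1 v)) (A ∪ Finset.image₂ mulR A S) =
      ((N2 C (bd E1 v) : ℝ) : ℂ) := by
    rw [← h1.ipr_eq, bd_adjM, ← ipr_bd hv.1 h7 E1, h7.ipr_eq, pair_self, h7.N2_eq]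
  have h6 : pair v (bd (adjM E2) (bd E2 v)) (A ∪ Finset.image₂ mulR A S) =
      ((N2 C (bd E2 v) : ℝ) : ℂ) := by
    rw [← h2.ipr_eq, bd_adjM, ← ipr_bd hv.1 h8 E2, h8.ipr_eq, pair_self, h8.N2_eq]
  have h9 : pair v (lapl E1 E2 v) (A ∪ Finset.image₂ mulR A S) =
      ((N2 C (bd E1 v) + N2 C (bd E2 v) : ℝ) : ℂ) := by
    rw [Complex.ofReal_add, ← h5, ← h6]
    simp only [lapl, pair, Pi.add_apply, inner_add_right, Finset.sum_add_distrib]
  have h10 : mass (lapl E1 E2 v) (A ∪ Finset.image₂ mulR A S) ≤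
      2 * (N2 C (bd (adjM E1) (bd E1 v)) + N2 C (bd (adjM E2) (bd E2 v))) := by
    rw [h1.N2_eq, h2.N2_eq]
    exact mass_add_le _ _ _
  rw [h4.N2_eq, stp, mass_sub_smul, h9, Complex.ofReal_re, ← h3.N2_eq]
  have h11 := mul_le_mul_of_nonneg_left h10 (sq_nonneg κ)
  linarith

/-- `v` agrees with a locally finite cocycle near `F` -/
def Agree (π : URep C V) (E2 : Matrix (Fin a) (Fin c) (MonoidAlgebra ℤ G)) (S : Finset G) (r : ℕ)
    (F : Set (Cos C)) (v : Fin a → G → V) : Prop :=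
  ∃ c' : Fin a → G → V, IsLf π c' ∧ bd E2 c' = 0 ∧
    ∀ x : G, cmk C x ∈ nb S r F → ∀ j, v j x = c' j x

lemma nb_step {S : Finset G} {r : ℕ} {F : Set (Cos C)} {x g : G} (hg : g ∈ S)
    (hx : cmk C x ∈ nb S r F) : cmk C (x * g⁻¹) ∈ nb S (r + 1) F := by
  refine Or.inr ⟨cmk C x, hx, g, hg, Or.inr ?_⟩
  rw [mulR_cmk, inv_mul_cancel_right]

lemma lap_congr {E : Matrix (Fin a) (Fin b) (MonoidAlgebra ℤ G)} {S : Finset G} (hS : SS E ⊆ S)
    {v v' : Fin a → G → V} {r : ℕ} {F : Set (Cos C)}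
    (h : ∀ x : G, cmk C x ∈ nb S (r + 1) F → ∀ j, v j x = v' j x) {x : G}
    (hx : cmk C x ∈ nb S r F) (j : Fin a) :
    bd (adjM E) (bd E v) j x = bd (adjM E) (bd E v') j x := by
  classical
  refine bd_congr (fun i g hg => bd_congr (fun l g' hg' => ?_) i) j
  have h1 := nb_step (hS (Finset.mul_mem_mul hg' hg)) hx
  have e : x * (g' * g)⁻¹ = x * g⁻¹ * g'⁻¹ := by group
  rw [e] at h1
  exact h _ h1 l

lemma agree_stp {E1 : Matrix (Fin a) (Fin b) (MonoidAlgebra ℤ G)}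
    {E2 : Matrix (Fin a) (Fin c) (MonoidAlgebra ℤ G)}
    (hE : ∀ (v : Fin b → G → V), bd E2 (bd (adjM E1) v) = 0)
    {S : Finset G} (hS1 : SS E1 ⊆ S) (hS2 : SS E2 ⊆ S) {r : ℕ} {F : Set (Cos C)}
    {v : Fin a → G → V} (hv : Agree π E2 S (r + 1) F v) (κ : ℝ) :
    Agree π E2 S r F (stp E1 E2 κ v) := by
  obtain ⟨c', h1, h2, h3⟩ := hv
  refine ⟨stp E1 E2 κ c', isLf_stp h1 E1 E2 κ, ?_, fun x hx j => ?_⟩
  · rw [stp, bd_sub, bd_smul, lapl, h2, bd_zero', add_zero, hE]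
    funext k x
    simp
  · have e0 : v j x = c' j x := h3 x (Or.inl hx) j
    have e1 := lap_congr hS1 h3 hx j
    have e2 := lap_congr hS2 h3 hx j
    change v j x - ((κ : ℝ) : ℂ) • (bd (adjM E1) (bd E1 v) j x + bd (adjM E2) (bd E2 v) j x) =
      c' j x - ((κ : ℝ) : ℂ) • (bd (adjM E1) (bd E1 c') j x + bd (adjM E2) (bd E2 c') j x)
    rw [e0, e1, e2]

/-- the pairing with a cycle does not change -/
lemma ipr_stp {A : Finset (Cos C)} {f v : Fin a → G → V} (hf : IsLf π f) (hv : IsFin π A v)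
    (E1 : Matrix (Fin a) (Fin b) (MonoidAlgebra ℤ G))
    (E2 : Matrix (Fin a) (Fin c) (MonoidAlgebra ℤ G)) (hE : bd E1 f = 0) {S : Finset G}
    (hS2 : SS E2 ⊆ S) {r : ℕ} (ha : Agree π E2 S (r + 1) (supp f C) v) (κ : ℝ) :
    ipr C f (stp E1 E2 κ v) = ipr C f v := by
  classical
  set S' : Finset G := SS E1 ∪ SS E2 with hS'
  have hS1' : SS E1 ⊆ S' := Finset.subset_union_left
  have hS2' : SS E2 ⊆ S' := Finset.subset_union_right
  have h1 := (isFin_lap hv E1 hS1').mono (Finset.subset_union_right (s₁ := A))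
  have h2 := (isFin_lap hv E2 hS2').mono (Finset.subset_union_right (s₁ := A))
  have h3 := hv.mono (Finset.subset_union_left (s₂ := Finset.image₂ mulR A S'))
  have h4 := isFin_stp hv E1 E2 κ hS1' hS2'
  have h5 : ipr C f (bd (adjM E1) (bd E1 v)) = 0 := by
    have h6 := ipr_bd hf (hv.bd (D := E1) (S := SD E1) subset_rfl) E1
    rw [hE] at h6
    rw [bd_adjM, ← h6]
    simp [ipr]
  have hsub : ∀ s, supp f C ⊆ nb S s (supp f C) := by
    intro s
    induction s with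
    | zero => exact subset_rfl
    | succ s ih => exact ih.trans fun q hq => Or.inl hq
  have h6 : ipr C f (bd (adjM E2) (bd E2 v)) = 0 := by
    obtain ⟨c', hc1, hc2, hc3⟩ := ha
    rw [ipr]
    refine Finset.sum_eq_zero fun j _ => ?_
    have : ∀ q : Cos C, @inner ℂ V InnerProductSpace.toInner (f j (rep q))
        (bd (adjM E2) (bd E2 v) j (rep q)) = 0 := by
      intro q
      by_cases h0 : f j (rep q) = 0
      · rw [h0, inner_zero_left]
      · have hq : q ∈ supp f C := ⟨j, h0⟩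
        have hx : cmk C (rep q) ∈ nb S r (supp f C) := by
          rw [cmk_rep]
          exact hsub r hq
        rw [lap_congr hS2 hc3 hx j, hc2, bd_zero']
        simp
    simp [this]
  have h7 : ipr C f (lapl E1 E2 v) = 0 := by
    rw [lapl, ipr_add h1 h2, h5, h6, add_zero]
  have h8 := (isFin_lapl hv E1 E2 hS1' hS2').mono (Finset.subset_union_right (s₁ := A))
  rw [h4.ipr_eq, stp, pair_sub_smul, ← h8.ipr_eq, ← h3.ipr_eq, h7, mul_zero, sub_zero]

/-- **the iteration** -/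
theorem core2 (E1 : Matrix (Fin a) (Fin b) (MonoidAlgebra ℤ G))
    (E2 : Matrix (Fin a) (Fin c) (MonoidAlgebra ℤ G))
    (hE : ∀ (v : Fin b → G → V), bd E2 (bd (adjM E1) v) = 0)
    {K B : ℝ} (hK0 : 0 ≤ K) (hB0 : 0 ≤ B)
    (hK : ∀ (A : Finset (Cos C)) (v : Fin a → G → V), IsFin π A v →
      N2 C v ≤ K * (N2 C (bd E1 v) + N2 C (bd E2 v)))
    (hB1 : ∀ (A : Finset (Cos C)) (v : Fin b → G → V), IsFin π A v →
      N2 C (bd (adjM E1) v) ≤ B * N2 C v)
    (hB2 : ∀ (A : Finset (Cos C)) (v : Fin c → G → V), IsFin π A v →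
      N2 C (bd (adjM E2) v) ≤ B * N2 C v)
    {S : Finset G} (hS1 : SS E1 ⊆ S) (hS2 : SS E2 ⊆ S) {ε : ℝ} (hε0 : 0 < ε)
    (hε : ε * ((2 * B + 1) * (K + 1)) ≤ 1)
    {f : Fin a → G → V} (hf : IsLf π f) (hE1 : bd E1 f = 0) (r : ℕ)
    {A : Finset (Cos C)} {v : Fin a → G → V} (hv : IsFin π A v)
    (ha : Agree π E2 S r (supp f C) v) :
    ‖pair f v A‖ ^ 2 * (1 + ε) ^ r ≤ mass v A * mass f (nbhd S r A) := by
  classical
  have hε1 : ε ≤ 1 := by
    have h1 : (1 : ℝ) ≤ (2 * B + 1) * (K + 1) := by nlinarith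
    nlinarith
  induction r generalizing A v with
  | zero =>
    rw [pow_zero, mul_one, nbhd, mul_comm]
    exact pair_le f v A
  | succ r ih =>
    set κ : ℝ := (2 * B + 1)⁻¹ with hκ
    have hκ0 : 0 < κ := by rw [hκ]; positivity
    have h1 := isFin_stp hv E1 E2 κ hS1 hS2
    have h3 := ih h1 (agree_stp hE hS1 hS2 ha κ)
    have h4 : pair f (stp E1 E2 κ v) (A ∪ Finset.image₂ mulR A S) = pair f v A := by
      rw [← h1.ipr_eq, ipr_stp hf hv E1 E2 hE1 hS2 ha, hv.ipr_eq]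
    have h5 : mass (stp E1 E2 κ v) (A ∪ Finset.image₂ mulR A S) ≤ (1 - ε) * mass v A := by
      rw [← h1.N2_eq, ← hv.N2_eq]
      refine (N2_stp hv E1 E2 κ).trans ?_
      have e1 := hK A v hv
      have e3 := hB1 _ _ (hv.bd (D := E1) (S := SD E1) subset_rfl)
      have e3' := hB2 _ _ (hv.bd (D := E2) (S := SD E2) subset_rfl)
      set n : ℝ := N2 C (bd E1 v) + N2 C (bd E2 v) with hn
      have hn0 : 0 ≤ n := add_nonneg (N2_nonneg _) (N2_nonneg _)
      have e4 : κ ^ 2 * (2 * (N2 C (bd (adjM E1) (bd E1 v)) + N2 C (bd (adjM E2) (bd E2 v)))) ≤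
          κ * n := by
        have e5 : κ ^ 2 * (2 * (N2 C (bd (adjM E1) (bd E1 v)) +
            N2 C (bd (adjM E2) (bd E2 v)))) ≤ κ ^ 2 * (2 * (B * n)) := by
          refine mul_le_mul_of_nonneg_left ?_ (by positivity)
          rw [hn]
          linarith
        have e6 : κ * (2 * B) ≤ 1 := by
          rw [hκ, inv_mul_le_iff₀ (by positivity)]
          linarith
        have e7 : κ ^ 2 * (2 * (B * n)) = (κ * (2 * B)) * (κ * n) := by ring
        rw [e7] at e5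
        refine e5.trans ?_
        have : 0 ≤ κ * n := by positivity
        nlinarith
      have e8 : ε * N2 C v ≤ κ * n := by
        have e9 : ε * N2 C v ≤ ε * (K * n) := mul_le_mul_of_nonneg_left e1 hε0.le
        have e10 : ε * ((2 * B + 1) * (K + 1)) * n ≤ 1 * n := mul_le_mul_of_nonneg_right hε hn0
        have e11 : κ * (ε * ((2 * B + 1) * (K + 1)) * n) ≤ κ * (1 * n) :=
          mul_le_mul_of_nonneg_left e10 hκ0.le
        have e12 : κ * (ε * ((2 * B + 1) * (K + 1)) * n) =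
          (κ * (2 * B + 1)) * (ε * (K + 1) * n) := by ring
        rw [e12, hκ, inv_mul_cancel₀ (by positivity), one_mul, one_mul] at e11
        have e13 : 0 ≤ ε * n := by positivity
        nlinarith
      nlinarith
    have hm1 : 0 ≤ mass (stp E1 E2 κ v) (A ∪ Finset.image₂ mulR A S) := mass_nonneg _ _
    have hm2 : 0 ≤ mass f (nbhd S r (A ∪ Finset.image₂ mulR A S)) := mass_nonneg _ _
    have hm3 : 0 ≤ mass v A := mass_nonneg _ _
    rw [h4] at h3
    rw [nbhd, pow_succ (1 + ε) r, ← mul_assoc]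
    calc ‖pair f v A‖ ^ 2 * (1 + ε) ^ r * (1 + ε)
        ≤ (mass (stp E1 E2 κ v) (A ∪ Finset.image₂ mulR A S) *
          mass f (nbhd S r (A ∪ Finset.image₂ mulR A S))) * (1 + ε) :=
          mul_le_mul_of_nonneg_right h3 (by linarith)
      _ ≤ (((1 - ε) * mass v A) * mass f (nbhd S r (A ∪ Finset.image₂ mulR A S))) * (1 + ε) := by
          refine mul_le_mul_of_nonneg_right (mul_le_mul_of_nonneg_right h5 hm2) (by linarith)
      _ = ((1 - ε) * (1 + ε)) * (mass v A * mass f (nbhd S r (A ∪ Finset.image₂ mulR A S))) := by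
          ring
      _ ≤ 1 * (mass v A * mass f (nbhd S r (A ∪ Finset.image₂ mulR A S))) := by
          refine mul_le_mul_of_nonneg_right (by nlinarith) (by positivity)
      _ = _ := one_mul _

end

end Pool.Agent.U670.ZM
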