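import Pool.Agent.U670.ZS.Alg

/-!
Locally finite cycles of complementary dimensions on coverings of a closed aspherical manifold.

Let `X : FinRes G` be the cellular chain complex of the universal cover of a closed aspherical
manifold `M` of dimension `n = X.len` with fundamental group `G`. Locally finite chains of the
covering `M_C`, with coefficients in a unitary representation `π` of `C ≤ G`, are defined in
`Pool.Agent.U670.ZS.Defs`. Poincaré duality is a chain map from the chain complex of `M_C` to its
cochain complex, given by matrices over `ℤ[G]`. So the intersection number of two locally finite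
cycles of dimensions `k` and `n - k` is a sum over the cosets `C x`, if their supports have a
finite coarse intersection.
-/

set_option autoImplicit false

namespace Pool.Agent.U670.ZM

open Pool.Agent.H919R4.ZS (FinRes)
open Pool.Agent.TH98.ZT (URep bd)
open Pool.Agent.U670.ZS

variable {G : Type} [Group G]

/-- A chain map from the chain complex `C_*` to the dual cochain complex `C^(n - *)`, `n = X.len`,
given by matrices over `ℤ[G]`: `dual l k` maps chains `f` of degree `l` to cochains `bd (dual l k) f`
of degree `k`, `l + k = n`, and `δ (dual (l + 1) k) f = ± (dual l (k + 1)) (∂ f)`. For instance the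
chain equivalence of Poincaré duality, if `X` belongs to a closed oriented aspherical manifold. -/
structure Duality (X : FinRes G) where
  /-- the matrices -/
  dual : ∀ l k : ℕ, Matrix (Fin (X.n l)) (Fin (X.n k)) (MonoidAlgebra ℤ G)
  /-- compatibility with the differentials -/
  comm : ∀ l k : ℕ, l + 1 + k = X.len → ∃ e : ℤ, (e = 1 ∨ e = -1) ∧
    dual (l + 1) k * adjM (X.d k) = e • (X.d l * dual l (k + 1))

section

variable {C : Subgroup G} {V : Type} [NormedAddCommGroup V] [InnerProductSpace ℂ V]

/-- The support of a chain: the set of the cosets on which it is not zero. -/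
def supp {m : ℕ} (f : Fin m → G → V) (C : Subgroup G) : Set (Cos C) :=
  {q | ∃ j, f j (rep q) ≠ 0}

/-- The `r`-neighbourhood of a set of cosets, in the graph with edges `{C x, C x s}`, `s ∈ S`. -/
def nb (S : Finset G) : ℕ → Set (Cos C) → Set (Cos C)
  | 0, F => F
  | r + 1, F => nb S r F ∪ {q | ∃ p ∈ nb S r F, ∃ s ∈ S, q = mulR p s ∨ p = mulR q s}

/-- The mass of `f` on the set `F` of cosets, the sum of `|f|^2` over `F`, is at most `a`. -/
def MassLE {m : ℕ} (f : Fin m → G → V) (F : Set (Cos C)) (a : ℝ) : Prop :=
  ∀ A : Finset (Cos C), (A : Set (Cos C)) ⊆ F → mass f A ≤ a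

/-- The chains `f` and `f'` have a finite coarse intersection: each neighbourhood of the support of
`f` meets the support of `f'` in a finite set. -/
def Transverse {m m' : ℕ} (C : Subgroup G) (f : Fin m → G → V) (f' : Fin m' → G → V) : Prop :=
  ∀ (S : Finset G) (r : ℕ), (supp f' C ∩ nb S r (supp f C)).Finite

/-- Subexponential growth of `f` near `f'` and of `f'` near `f`: for all finite sets `S` and all
`ε > 0`, for infinitely many `r`, (mass of `f` on the `r`-neighbourhood of `f'`) times (mass of `f'`
on the `r`-neighbourhood of `f`) is at most `(1 + ε)^r`. -/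
def MutuallySubexp {m m' : ℕ} (C : Subgroup G) (f : Fin m → G → V) (f' : Fin m' → G → V) : Prop :=
  ∀ (S : Finset G) (ε : ℝ), 0 < ε → ∃ᶠ r : ℕ in Filter.atTop, ∃ a b : ℝ,
    MassLE f (nb S r (supp f' C)) a ∧ MassLE f' (nb S r (supp f C)) b ∧ a * b ≤ (1 + ε) ^ r

/-- The intersection number of `f` and `f'`: the sum over the cosets of the inner products of `f`
and the dual of `f'`. -/
noncomputable def crossing {X : FinRes G} (P : Duality X) (C : Subgroup G) (k l : ℕ)
    (f : Fin (X.n k) → G → V) (f' : Fin (X.n l) → G → V) : ℂ :=
  ∑ᶠ q : Cos C, ∑ j, @inner ℂ V InnerProductSpace.toInner (f j (rep q))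
    (bd (P.dual l k) f' j (rep q))

end

end Pool.Agent.U670.ZM
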