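import Pool.Agent.U670.ZM.Core
import Pool.Agent.U670.ZS.Main

set_option autoImplicit false
set_option linter.unusedSectionVars false

open scoped Matrix ENNReal Pointwise

namespace Pool.Agent.U670.ZM

open Pool.Agent.H919R4.ZS (FinRes RedC toRed)
open Pool.Agent.TH98.ZT (URep bd Tempered tempered_of_amenable)
open Pool.Agent.H496R3.ZS (IsAmenable)
open Pool.Agent.U670.ZS

noncomputable section

variable {G : Type} [Group G] {a b c : ℕ}

lemma lt_neg {W : Type} [AddCommGroup W] (a : MonoidAlgebra ℤ G) (F : G → W) :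
    lt (-a) F = -lt a F := by
  have h := lt_add a (-a) F
  rw [add_neg_cancel, lt_zero] at h
  exact (neg_eq_of_add_eq_zero_right h.symm).symm

lemma bd_neg_mat {W : Type} [AddCommGroup W] (M : Matrix (Fin a) (Fin b) (MonoidAlgebra ℤ G))
    (f : Fin a → G → W) : bd (-M) f = -bd M f := by
  funext k
  rw [bd_eq, Pi.neg_apply, bd_eq, ← Finset.sum_neg_distrib]
  refine Finset.sum_congr rfl fun j _ => ?_
  rw [Matrix.neg_apply, lt_neg]

variable {C : Subgroup G} {V : Type} [NormedAddCommGroup V] [InnerProductSpace ℂ V] {π : URep C V}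

/-- the dual of a cycle is a cocycle -/
lemma dual_cocycle {X : FinRes G} (P : Duality X) {k l : ℕ} (hkl : k + l = X.len)
    {f' : Fin (X.n l) → G → V} (hc : IsCyc X l f') :
    bd (adjM (X.d k)) (bd (P.dual l k) f') = 0 := by
  cases l with
  | zero =>
    have hn : X.n (k + 1) = 0 := X.n_eq_zero _ (by omega)
    have hE : IsEmpty (Fin (X.n (k + 1))) := by rw [hn]; infer_instance
    funext j
    exact hE.elim j
  | succ l =>
    obtain ⟨e, he, h⟩ := P.comm l k (by omega)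
    have hc' : bd (X.d l) f' = 0 := hc
    rw [← bd_mul, h]
    rcases he with rfl | rfl
    · rw [one_smul, bd_mul, hc', bd_zero']
    · have : (-1 : ℤ) • (X.d l * P.dual l (k + 1)) = -(X.d l * P.dual l (k + 1)) := by
        rw [neg_smul, one_smul]
      rw [this, bd_neg_mat, bd_mul, hc', bd_zero', neg_zero]

lemma mem_supp_of_ne {f : Fin a → G → V} (hf : IsLf π f) {j : Fin a} {x : G} (h : f j x ≠ 0) :
    cmk C x ∈ supp f C := by
  refine ⟨j, fun h0 => h ?_⟩
  have h1 := (hf.norm j).rep x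
  rw [h0, norm_zero] at h1
  have h2 : ‖f j x‖ ^ 2 = 0 := by rw [← h1]; norm_num
  exact norm_eq_zero.1 (pow_eq_zero_iff (two_ne_zero) |>.1 h2)

lemma supp_subset_nb (S : Finset G) (r : ℕ) (F : Set (Cos C)) : F ⊆ nb S r F := by
  induction r with
  | zero => exact subset_rfl
  | succ r ih => exact ih.trans fun q hq => Or.inl hq

lemma nbhd_sub {S : Finset G} {r s : ℕ} {F : Set (Cos C)} {A : Finset (Cos C)}
    (h : (A : Set (Cos C)) ⊆ nb S s F) : ((nbhd S r A : Finset (Cos C)) : Set (Cos C)) ⊆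
      nb S (s + r) F := by
  classical
  induction r generalizing A s with
  | zero => exact h
  | succ r ih =>
    rw [nbhd]
    have h1 : ((A ∪ Finset.image₂ mulR A S : Finset (Cos C)) : Set (Cos C)) ⊆ nb S (s + 1) F := by
      intro q hq
      rw [Finset.mem_coe, Finset.mem_union] at hq
      rcases hq with hq | hq
      · exact Or.inl (h hq)
      · obtain ⟨p, hp, g, hg, rfl⟩ := Finset.mem_image₂.1 hq
        exact Or.inr ⟨p, h hp, g, hg, Or.inl rfl⟩
    have := ih h1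
    rwa [add_assoc, add_comm 1 r] at this

/-- the main estimate for one radius -/
theorem estimate {X : FinRes G} {k l : ℕ} {D : Matrix (Fin (X.n l)) (Fin (X.n k)) (MonoidAlgebra ℤ G)}
    {K B BD : ℝ} (hK0 : 0 ≤ K) (hB0 : 0 ≤ B) (hBD0 : 0 ≤ BD)
    (hK : ∀ (A : Finset (Cos C)) (v : Fin (X.n k) → G → V), IsFin π A v →
      N2 C v ≤ K * (N2 C (bd (dm X k) v) + N2 C (bd (adjM (X.d k)) v)))
    (hB1 : ∀ (A : Finset (Cos C)) (v : Fin (np X k) → G → V), IsFin π A v →
      N2 C (bd (adjM (dm X k)) v) ≤ B * N2 C v)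
    (hB2 : ∀ (A : Finset (Cos C)) (v : Fin (X.n (k + 1)) → G → V), IsFin π A v →
      N2 C (bd (adjM (adjM (X.d k))) v) ≤ B * N2 C v)
    (hBD : ∀ (A : Finset (Cos C)) (v : Fin (X.n l) → G → V), IsFin π A v →
      N2 C (bd D v) ≤ BD * N2 C v)
    {S : Finset G} (hS1 : SS (dm X k) ⊆ S) (hS2 : SS (adjM (X.d k)) ⊆ S) (hSD : SD D ⊆ S)
    {ε : ℝ} (hε0 : 0 < ε) (hε : ε * ((2 * B + 1) * (K + 1)) ≤ 1)
    {f : Fin (X.n k) → G → V} {f' : Fin (X.n l) → G → V} (hf : IsLf π f) (hf' : IsLf π f')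
    (hcyc : bd (dm X k) f = 0) (hcoc : bd (adjM (X.d k)) (bd D f') = 0)
    (htr : ∀ r : ℕ, (supp f' C ∩ nb S r (supp f C)).Finite) (r : ℕ) {α β : ℝ}
    (hα : MassLE f (nb S (r + 1) (supp f' C)) α) (hβ : MassLE f' (nb S (r + 1) (supp f C)) β) :
    ‖∑ᶠ q : Cos C, ∑ j, @inner ℂ V InnerProductSpace.toInner (f j (rep q))
      (bd D f' j (rep q))‖ ^ 2 * (1 + ε) ^ r ≤ (BD * β) * α := by
  classical
  set cc : Fin (X.n k) → G → V := bd D f' with hcc
  have hccl : IsLf π cc := hf'.bd D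
  -- elements of the support of the dual
  have hsup : ∀ (j : Fin (X.n k)) (x : G), cc j x ≠ 0 → ∃ g ∈ S, cmk C (x * g⁻¹) ∈ supp f' C := by
    intro j x hx
    obtain ⟨i, g, hg, h1⟩ := bd_ne_zero hx
    exact ⟨g, hSD hg, mem_supp_of_ne hf' h1⟩
  have hfin1 := htr (r + 1)
  have hfin : (supp cc C ∩ nb S r (supp f C)).Finite := by
    refine ((hfin1.toFinset ×ˢ S).image fun p => mulR p.1 p.2).finite_toSet.subset ?_
    rintro q ⟨⟨j, hj⟩, hq⟩
    obtain ⟨g, hg, h1⟩ := hsup j _ hj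
    have h2 : cmk C (rep q * g⁻¹) ∈ nb S (r + 1) (supp f C) :=
      nb_step hg (by rw [cmk_rep]; exact hq)
    rw [Finset.mem_coe, Finset.mem_image]
    refine ⟨(cmk C (rep q * g⁻¹), g), Finset.mem_product.2 ⟨hfin1.mem_toFinset.2 ⟨h1, h2⟩, hg⟩, ?_⟩
    change mulR (cmk C (rep q * g⁻¹)) g = q
    rw [mulR_cmk, inv_mul_cancel_right, cmk_rep]
  set A : Finset (Cos C) := hfin.toFinset with hA
  have hAmem : ∀ q, q ∈ A ↔ q ∈ supp cc C ∧ q ∈ nb S r (supp f C) := fun q => by
    rw [hA, Set.Finite.mem_toFinset]; rfl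
  -- the cut-off of the dual
  have hv : IsFin π A (cut A cc) := isFin_cut A hccl
  have hag : Agree π (adjM (X.d k)) S r (supp f C) (cut A cc) := by
    refine ⟨cc, hccl, hcoc, fun x hx j => ?_⟩
    by_cases h0 : cc j x = 0
    · rw [cut, h0]; split_ifs <;> rfl
    · rw [cut, if_pos ((hAmem _).2 ⟨mem_supp_of_ne hccl h0, hx⟩)]
  have hE : ∀ (v : Fin (np X k) → G → V), bd (adjM (X.d k)) (bd (adjM (dm X k)) v) = 0 := by
    intro v
    rw [bd_adjM, bd_adjM, ← cbd_mul, d_mul_dm, cbd_zero_mat]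
  have h1 := core2 (dm X k) (adjM (X.d k)) hE hK0 hB0 hK hB1 hB2 hS1 hS2 hε0 hε hf hcyc r hv hag
  -- the pairing
  have h2 : pair f (cut A cc) A = ∑ᶠ q : Cos C, ∑ j, @inner ℂ V InnerProductSpace.toInner
      (f j (rep q)) (cc j (rep q)) := by
    rw [finsum_eq_sum_of_support_subset (s := A)]
    · rw [pair, Finset.sum_comm]
      refine Finset.sum_congr rfl fun q hq => Finset.sum_congr rfl fun j _ => ?_
      rw [cut, cmk_rep, if_pos hq]
    · intro q hq
      rw [Function.mem_support] at hq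
      obtain ⟨j, -, hj⟩ := Finset.exists_ne_zero_of_sum_ne_zero hq
      rw [Finset.mem_coe, hAmem]
      refine ⟨⟨j, fun h0 => hj (by rw [h0, inner_zero_right])⟩, supp_subset_nb S r _ ⟨j, fun h0 =>
        hj (by rw [h0, inner_zero_left])⟩⟩
  -- the mass of the dual
  have h3 : mass (cut A cc) A ≤ BD * β := by
    set A' : Finset (Cos C) := hfin1.toFinset with hA'
    have hA'mem : ∀ q, q ∈ A' ↔ q ∈ supp f' C ∧ q ∈ nb S (r + 1) (supp f C) := fun q => by
      rw [hA', Set.Finite.mem_toFinset]; rfl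
    have hv' : IsFin π A' (cut A' f') := isFin_cut A' hf'
    have e1 : mass (cut A cc) A = mass (bd D (cut A' f')) A := by
      refine Finset.sum_congr rfl fun j _ => Finset.sum_congr rfl fun q hq => ?_
      rw [cut, cmk_rep, if_pos hq]
      congr 2
      refine bd_congr (fun i g hg => ?_) j
      by_cases h0 : f' i (rep q * g⁻¹) = 0
      · rw [cut, h0]; split_ifs <;> rfl
      · rw [cut, if_pos ((hA'mem _).2 ⟨mem_supp_of_ne hf' h0, nb_step (hSD hg) (by
          rw [cmk_rep]; exact ((hAmem q).1 hq).2)⟩)]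
    have e2 : mass (bd D (cut A' f')) A ≤ N2 C (bd D (cut A' f')) := by
      refine Finset.sum_le_sum fun j _ => ?_
      exact Summable.sum_le_tsum A (fun _ _ => by positivity)
        ((hv'.bd (D := D) (S := SD D) subset_rfl).summable j)
    rw [e1]
    refine e2.trans ((hBD A' _ hv').trans (mul_le_mul_of_nonneg_left ?_ hBD0))
    rw [N2_cut A' hf']
    refine hβ A' fun q hq => ?_
    exact ((hA'mem q).1 hq).2
  -- the mass of `f`
  have h4 : mass f (nbhd S r A) ≤ α := by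
    refine hα _ ?_
    have h5 : (A : Set (Cos C)) ⊆ nb S 1 (supp f' C) := by
      intro q hq
      obtain ⟨⟨j, hj⟩, -⟩ := (hAmem q).1 hq
      obtain ⟨g, hg, h6⟩ := hsup j _ hj
      refine Or.inr ⟨cmk C (rep q * g⁻¹), h6, g, hg, Or.inl ?_⟩
      rw [mulR_cmk, inv_mul_cancel_right, cmk_rep]
    have := nbhd_sub (r := r) h5
    rwa [add_comm 1 r] at this
  rw [h2] at h1
  refine h1.trans (mul_le_mul h3 h4 (mass_nonneg _ _) ?_)
  have h6 : 0 ≤ β := le_trans (mass_nonneg f' ∅) (hβ ∅ (by simp))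
  positivity

/-- **main theorem** -/
theorem main (X : FinRes G) (P : Duality X) (k l : ℕ) (hkl : k + l = X.len)
    (hπ : IsAmenable C ∨ Tempered π) (f : Fin (X.n k) → G → V) (f' : Fin (X.n l) → G → V)
    (hf : IsLf π f) (hf' : IsLf π f') (hc : IsCyc X k f) (hc' : IsCyc X l f')
    (htr : Transverse C f f') (hsub : MutuallySubexp C f f') (h0 : crossing P C k l f f' ≠ 0) :
    ∃ i ≤ k, Nontrivial (X.homology (toRed G) i) := by
  classical
  by_contra hcon
  push Not at hcon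
  have hs : ∀ i ≤ k, Subsingleton (X.homology (toRed G) i) := fun i hi =>
    not_nontrivial_iff_subsingleton.1 (by simpa using hcon i hi)
  have hT : Tempered π := by
    rcases hπ with hC | hT
    · exact tempered_of_amenable hC π
    · exact hT
  obtain ⟨K, hK0, hK⟩ := gap_reg X k hs
  have hK' : ∀ (u : Fin (X.n k) → G → ℂ) (α : Fin (X.n k) → ℝ)
      (β : Fin (np X k) → ℝ) (γ : Fin (X.n (k + 1)) → ℝ),
      (∀ j, HasSum (fun x => ‖u j x‖ ^ 2) (α j)) →
      (∀ l, HasSum (fun x => ‖bd (dm X k) u l x‖ ^ 2) (β l)) →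
      (∀ l, HasSum (fun x => ‖bd (adjM (X.d k)) u l x‖ ^ 2) (γ l)) →
      ∑ j, α j ≤ K * (∑ l, β l + ∑ l, γ l) := by
    intro u α β γ hα hβ hγ
    exact hK u α β γ hα hβ (fun l => by
      have := hγ l
      rwa [bd_adjM] at this)
  have hgap : ∀ (A : Finset (Cos C)) (v : Fin (X.n k) → G → V),
      IsFin π A v → N2 C v ≤ K * (N2 C (bd (dm X k) v) + N2 C (bd (adjM (X.d k)) v)) :=
    fun A v hv => transfer (dm X k) (adjM (X.d k)) hK' hT hv
  obtain ⟨B1, hB10, hB1⟩ := N2_bd (adjM (dm X k))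
  obtain ⟨B2, hB20, hB2⟩ := N2_bd (adjM (adjM (X.d k)))
  obtain ⟨BD, hBD0, hBD⟩ := N2_bd (P.dual l k)
  set B : ℝ := B1 + B2 with hB
  have hB0 : 0 ≤ B := by positivity
  set S : Finset G := SS (dm X k) ∪ (SS (adjM (X.d k)) ∪ SD (P.dual l k)) with hS
  set ε : ℝ := ((2 * B + 1) * (K + 1))⁻¹ with hε
  have hε0 : 0 < ε := by positivity
  have hεm : ε * ((2 * B + 1) * (K + 1)) ≤ 1 := (inv_mul_cancel₀ (by positivity)).le
  have hest := fun (r : ℕ) {α β : ℝ} => estimate (π := π) (D := P.dual l k) hK0 hB0 hBD0 hgap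
    (fun A v hv => (hB1 π A v hv).trans (mul_le_mul_of_nonneg_right (by linarith) (N2_nonneg _)))
    (fun A v hv => (hB2 π A v hv).trans (mul_le_mul_of_nonneg_right (by linarith) (N2_nonneg _)))
    (fun A v hv => hBD π A v hv) (S := S) Finset.subset_union_left
    (Finset.subset_union_left.trans Finset.subset_union_right)
    (Finset.subset_union_right.trans Finset.subset_union_right) hε0 hεm hf hf'
    ((isCyc_iff X k f).1 hc) (dual_cocycle P hkl hc') (fun r => htr S r) r (α := α) (β := β)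
  -- growth
  obtain ⟨ε', hε'0, hε'⟩ : ∃ ε' : ℝ, 0 < ε' ∧ 1 + ε' < 1 + ε := ⟨ε / 2, by positivity, by linarith⟩
  have hfreq := hsub S ε' hε'0
  set z : ℝ := ‖crossing P C k l f f'‖ ^ 2 with hz
  have hz0 : 0 < z := by positivity
  -- for large `r`, `(BD + 1) (1 + ε')^(r+1) < z (1 + ε)^r`
  have hev : ∀ᶠ r : ℕ in Filter.atTop, (BD + 1) * (1 + ε') ^ (r + 1) < z * (1 + ε) ^ r := by
    have h1 : Filter.Tendsto (fun r : ℕ => ((1 + ε') / (1 + ε)) ^ r) Filter.atTop (nhds 0) :=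
      tendsto_pow_atTop_nhds_zero_of_lt_one (by positivity) (by
        rw [div_lt_one (by positivity)]; exact hε')
    have h2 : 0 < z / ((BD + 1) * (1 + ε')) := by positivity
    filter_upwards [h1.eventually (gt_mem_nhds h2)] with r hr
    rw [div_pow, div_lt_div_iff₀ (by positivity) (by positivity)] at hr
    calc (BD + 1) * (1 + ε') ^ (r + 1) = (1 + ε') ^ r * ((BD + 1) * (1 + ε')) := by ring
      _ < z * (1 + ε) ^ r := hr
  obtain ⟨N, hN⟩ := Filter.eventually_atTop.1 hev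
  obtain ⟨r', ⟨α, β, hα, hβ, hαβ⟩, hr'⟩ :=
    (hfreq.and_eventually (Filter.eventually_ge_atTop (N + 1))).exists
  obtain ⟨r, rfl⟩ : ∃ r, r' = r + 1 := ⟨r' - 1, by omega⟩
  have h1 := hest r hα hβ
  have h2 := hN r (by omega)
  have hα0 : 0 ≤ α := le_trans (mass_nonneg f ∅) (hα ∅ (by simp))
  have hβ0 : 0 ≤ β := le_trans (mass_nonneg f' ∅) (hβ ∅ (by simp))
  have h3 : z * (1 + ε) ^ r ≤ (BD * β) * α := h1
  have h4 : (BD * β) * α ≤ (BD + 1) * (1 + ε') ^ (r + 1) := by
    have e1 : (BD * β) * α = BD * (α * β) := by ring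
    rw [e1]
    refine mul_le_mul (by linarith) hαβ (by positivity) (by positivity)
  linarith

end

end Pool.Agent.U670.ZM
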